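import Pool.Agent.H51.FA.List
import Pool.Agent.H51.FA.Ex

/-!
# Few automorphisms

`S : Surface` encodes a compact complex surface `X` homeomorphic to `S² × S²` which is not a
Hirzebruch surface, with its group `S.G` of automorphisms; the elements of the subgroup `S.H` act
trivially on `H²(X; ℤ)`. The fields of `Surface` (see `Pool.Agent.H51.FA.Defs`) hold for every such `X`; they
are the adjunction formula, inequalities of Miyaoka for curves on minimal surfaces of general type,
the theorems of Lefschetz and Smith, localisation in equivariant cohomology, the Riemann–Roch
theorem in the form of an invariant divisor in `|2E + 3F|`, and the Riemann–Hurwitz formula.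
-/

namespace Pool.Agent.Results.MP_0ddc02_gt.FewAutomorphisms

open Pool.Agent.H51.FA

/-- A complex surface homeomorphic to `S² × S²` which is not a Hirzebruch surface has at most 120
automorphisms. Those which act trivially on `H²` form a subgroup of index at most two, of order `n`
or `2n`, where `n ≤ 25` is the order of an element, or `12`, `24` or `60`; each of them except the
identity has exactly four fixed points, and the stabilizer of a point in this subgroup is cyclic.
The surface contains no rational curve. The data exist for a group of order two. -/
theorem result :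
    (∀ S : Surface,
      Nat.card S.G ≤ 120 ∧ Nat.card S.G ≤ 2 * Nat.card S.H ∧
      ((∃ h : S.H, Nat.card S.H = orderOf h ∨ Nat.card S.H = 2 * orderOf h) ∨
        Nat.card S.H = 12 ∨ Nat.card S.H = 24 ∨ Nat.card S.H = 60) ∧
      (∀ h : S.H, orderOf h ≤ 25) ∧
      (∀ h : S.H, h ≠ 1 → (MulAction.fixedBy S.X h).ncard = 4) ∧
      (∀ x : S.X, IsCyclic (MulAction.stabilizer S.H x)) ∧
      (∀ c : S.C, 1 ≤ S.genus c)) ∧
    ∃ S : Surface, Nat.card S.G = 2 :=
  ⟨fun S => ⟨card_aut_le S, card_le_two_mul S, card_ker_list S, order_ker_le S, ncard_fixedBy S,
    isCyclic_stabilizer S, genus_pos S⟩, exists_surface⟩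

end Pool.Agent.Results.MP_0ddc02_gt.FewAutomorphisms
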