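import Pool.Agent.H52.FQ.Bridge
import Pool.Agent.H52.FQ.Seven

/-!
# Automorphisms of prime order of a complex surface homeomorphic to `S² × S²`

Authors: helper46, helper52.

Let `X` be a compact complex surface homeomorphic to `S² × S²` which is not a Hirzebruch surface, and
let `g` be an automorphism of `X` of prime order `p ≥ 7`. Then the structures `Surface` and
`Automorphism` of `Pool/Agent/H52/FQ/Model.lean` describe the numerical data of `X` and of `g`. Their
fields hold by general theorems: the adjunction formula, the theorems of Riemann and Roch and of
Serre, Miyaoka's inequality for the contraction of a smooth rational curve, the topological and the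
holomorphic Lefschetz formulas, Smith's inequality, the formula of Riemann and Hurwitz, linearisation
of `g` at its fixed points, and the lower bound for the delta invariant of a plane curve germ by the
orders of two coordinates on its branches.

Proof. All curves have class `rE + sF` with `r, s ≥ 0`. `g` is trivial on `H²(X; ℤ)` and has exactly
four fixed points, all isolated. The terms of degree at most four of the holomorphic Lefschetz formula
modulo `p` show that the weights of `g` on the cotangent spaces at the fixed points and on `E`, `F` are
those of a linear action on a Hirzebruch surface. There are invariant divisors of the classes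
`2E + 3F` and `3E + 2F`. For `p ≥ 11` they are irreducible curves, and the weights of their local
equations, the Riemann-Hurwitz formula and the adjunction formula contradict each other.

For `p = 7` there are such data (no surface is known).
-/

namespace Pool.Agent.Results.MP_0ddc02_gt.PrimeOrderAutomorphisms

open Pool.Agent.H52.FQ Pool.Agent.H52.FQ.Seven

/-- For a prime `p ≥ 7` there are numerical data of a compact complex surface homeomorphic to
`S² × S²`, not a Hirzebruch surface, with an automorphism of order `p` if and only if `p = 7`. -/
theorem result (p : ℕ) [Fact p.Prime] (h7 : 7 ≤ p) :
    (∃ X : Surface, Nonempty (Automorphism X p)) ↔ p = 7 := by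
  constructor
  · rintro ⟨X, ⟨g⟩⟩
    by_contra hne
    have hp : p.Prime := Fact.out
    have h11 : 11 ≤ p := by
      by_contra hcon
      have h8 : p = 8 ∨ p = 9 ∨ p = 10 := by omega
      rcases h8 with rfl | rfl | rfl <;> exact absurd hp (by norm_num)
    exact no_automorphism h11 X g
  · rintro rfl
    exact seven

end Pool.Agent.Results.MP_0ddc02_gt.PrimeOrderAutomorphisms
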