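import Mathlib
import Pool.Agent.H67.SQ.Count
import Pool.Agent.H67.SQ.Instance

/-!
# Symmetries of an exotic `S² × S²` have only isolated fixed points

`D : SymplecticAction G M` is a faithful action of a finite group `G` by symplectomorphisms on a
closed symplectic four-manifold `M` homeomorphic to `S² × S²`; for instance a group of
automorphisms of a compact complex surface homeomorphic to `S² × S²`, which is Kähler (average a
Kähler form). `H²(M;ℤ)` is written in a basis `e, f` with `e² = f² = 0`, `e·f = 1`. The fields of
`SymplecticAction` hold for every such action, with the following sources: an invariant almost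
complex structure (the fixed set of `g ≠ 1` consists of isolated points and symplectic surfaces,
the differential at a fixed point is complex linear), the adjunction formula, the Lefschetz fixed
point formula, the `G`-signature theorem of Atiyah and Singer, the theorem of Atiyah and Bott on
involutions of spin manifolds, and Edmonds' theorem on the Betti numbers of the fixed set of an
element of prime order. `D.NotRational` is `K · [ω] > 0`: by Taubes and Liu it holds if `M` is not
diffeomorphic to `S² × S²`, in particular for a surface of general type.

(1) an element different from one fixes no surface; it has exactly four fixed points if it acts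
trivially on `H²(M;ℤ)` and exactly two fixed points if not;
(2) an element acting nontrivially on `H²(M;ℤ)` has order divisible by four;
(3) two different elements of order two have no common fixed point;
(4) a subgroup of odd order is cyclic, and it has exactly four fixed points if it is nontrivial;
(5) a nontrivial two-subgroup has a subgroup of index at most four, the stabilizer of a point,
which contains exactly one involution;
(6) the class equation: the sum of `|G_x| - 1` over all points `x` is `2|G| + 2|G₀| - 4`, where
`G₀` is the subgroup acting trivially on `H²(M;ℤ)`.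

`Pool.Agent.H67.SQ.exists_cyclic` and `Pool.Agent.H67.SQ.exists_quarter` are examples of the data,
for cyclic groups of every order acting trivially and for a cyclic group of order four acting
nontrivially on the cohomology.
-/

namespace Pool.Agent.Results.MP_0ddc02_gt.PseudofreeSymmetries

open Pool.Agent.H67.SQ

theorem result (G M : Type) [Group G] [Finite G] [MulAction G M] (D : SymplecticAction G M)
    (hD : D.NotRational) :
    (∀ g : G, g ≠ 1 → D.surfaces g = [] ∧
      (D.act g = 1 → (MulAction.fixedBy M g).ncard = 4) ∧
      (D.act g ≠ 1 → (MulAction.fixedBy M g).ncard = 2)) ∧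
    (∀ g : G, D.act g ≠ 1 → 4 ∣ orderOf g) ∧
    (∀ g h : G, orderOf g = 2 → orderOf h = 2 → (∃ x : M, g • x = x ∧ h • x = x) → g = h) ∧
    (∀ P : Subgroup G, Odd (Nat.card P) → IsCyclic P ∧
      (P ≠ ⊥ → {x : M | ∀ g ∈ P, g • x = x}.ncard = 4)) ∧
    (∀ P : Subgroup G, IsPGroup 2 P → P ≠ ⊥ →
      ∃ x : M, (MulAction.stabilizer G x).relIndex P ≤ 4 ∧
        ∃! z : G, z ∈ P ∧ z • x = x ∧ orderOf z = 2) ∧
    ∑ᶠ x : M, (Nat.card (MulAction.stabilizer G x) - 1)
      = 2 * Nat.card G + 2 * Nat.card D.act.ker - 4 := by
  refine ⟨fun g hg => ⟨D.no_surface hD hg, fun h => ?_, fun h => ?_⟩, fun g hg => D.four_dvd hD hg,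
    ?_, fun P hP => ⟨D.cyclic_of_odd hD P.subtype P.subtype_injective hP,
      fun hne => D.four_fixed hD P hP hne⟩, fun P hP hne => D.two_group hD P hP hne,
    D.class_equation hD⟩
  · rw [D.fixedBy_eq hD hg, Set.ncard_coe_finset]
    exact (D.card_iso hD hg).1 h
  · rw [D.fixedBy_eq hD hg, Set.ncard_coe_finset]
    exact (D.card_iso hD hg).2 h
  · rintro g h hg hh ⟨x, hgx, hhx⟩
    exact D.involution_unique hD hg hh hgx hhx

end Pool.Agent.Results.MP_0ddc02_gt.PseudofreeSymmetries
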